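import Mathlib

set_option autoImplicit false

namespace Pool.Agent.Lib_MP_7488b5_nt

open Polynomial

/-- The embedding `F_q[T] → F_q((T⁻¹))`. The variable of `LaurentSeries F` plays the role of
`T⁻¹`, so that `T` is mapped to the Laurent monomial of exponent `-1`. -/
noncomputable def emb (F : Type*) [Field F] : Polynomial F →+* LaurentSeries F :=
  Polynomial.eval₂RingHom (HahnSeries.C : F →+* LaurentSeries F) (HahnSeries.single (-1) 1)

open Classical in
/-- The absolute value on `F_q((T⁻¹))`: `|ξ| = q^{-N}` if `ξ = ∑_{n ≥ N} a_n T^{-n}`, `a_N ≠ 0`,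
and `|0| = 0`. -/
noncomputable def absv {F : Type*} [Field F] [Fintype F] (ξ : LaurentSeries F) : ℝ :=
  if ξ = 0 then 0 else (Fintype.card F : ℝ) ^ (-ξ.order)

/-- The height of `P ∈ F_q[T][X]`: the maximum of the absolute values of its coefficients. -/
noncomputable def height {F : Type*} [Field F] [Fintype F] (P : Polynomial (Polynomial F)) : ℝ :=
  ⨆ i : ℕ, absv (emb F (P.coeff i))

/-- `P ∈ F_q[T][X]` is a minimal defining polynomial of `α ∈ F_q((T⁻¹))` over `F_q[T]`: it is
irreducible in `F_q[T][X]` and vanishes at `α`. It is unique up to a factor in `F_q^*`. -/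
def IsMinDefPoly {F : Type*} [Field F] (P : Polynomial (Polynomial F)) (α : LaurentSeries F) :
    Prop :=
  Irreducible P ∧ P.eval₂ (emb F) α = 0

/-- The exponent `ŵ_n^*(ξ)`, as an extended real number: the supremum of the real `w` such that
for all large `H` some algebraic `α ∈ F_q((T⁻¹))` of degree at most `n` with `H(α) ≤ H` satisfies
`0 < |ξ - α| < H(α)⁻¹ H^{-w}`. -/
noncomputable def wHatStar {F : Type*} [Field F] [Fintype F] (n : ℕ) (ξ : LaurentSeries F) :
    EReal :=
  sSup {e : EReal | ∃ w : ℝ, e = (w : EReal) ∧ ∃ H₀ : ℝ, ∀ H : ℝ, H₀ < H →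
    ∃ (α : LaurentSeries F) (P : Polynomial (Polynomial F)), IsMinDefPoly P α ∧
      P.natDegree ≤ n ∧ height P ≤ H ∧
      0 < absv (ξ - α) ∧ absv (ξ - α) < (height P)⁻¹ * H ^ (-w)}

end Pool.Agent.Lib_MP_7488b5_nt
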