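import Mathlib
import Pool.Agent.Lib_MP_7488b5_nt.Defs

set_option autoImplicit false

namespace Pool.Agent.Lib_MP_7488b5_nt

open Polynomial

section basic

variable {F : Type*} [Field F]

theorem emb_C (a : F) : emb F (C a) = HahnSeries.C a := by simp [emb]

theorem emb_X : emb F X = HahnSeries.single (-1) 1 := by simp [emb]

theorem single_pow' (a : ℤ) (n : ℕ) :
    (HahnSeries.single a (1 : F)) ^ n = HahnSeries.single ((n : ℤ) * a) (1 : F) := by
  rw [HahnSeries.single_pow]; simp

theorem emb_X_pow (n : ℕ) : emb F (X ^ n) = HahnSeries.single (-(n : ℤ)) 1 := by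
  rw [map_pow, emb_X, single_pow']
  congr 2
  ring

theorem emb_monomial (n : ℕ) (a : F) : emb F (monomial n a) = HahnSeries.single (-(n : ℤ)) a := by
  rw [← C_mul_X_pow_eq_monomial, map_mul, emb_C, emb_X_pow, HahnSeries.C_mul_eq_smul]
  ext m
  simp [HahnSeries.coeff_single]

theorem emb_coeff (R : F[X]) (m : ℤ) :
    (emb F R).coeff m = if m ≤ 0 then R.coeff m.natAbs else 0 := by
  induction R using Polynomial.induction_on' with
  | add p q hp hq =>
    rw [map_add, HahnSeries.coeff_add, hp, hq]
    split_ifs <;> simp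
  | monomial n a =>
    rw [emb_monomial, HahnSeries.coeff_single, Polynomial.coeff_monomial]
    by_cases hm : m ≤ 0
    · rw [if_pos hm]
      by_cases h : m = -(n : ℤ)
      · rw [if_pos h, if_pos (by omega)]
      · rw [if_neg h, if_neg (by omega)]
    · rw [if_neg hm, if_neg (by omega)]

theorem emb_orderTop (R : F[X]) (hR : R ≠ 0) :
    (emb F R).orderTop = ((-(R.natDegree : ℤ) : ℤ) : WithTop ℤ) := by
  apply le_antisymm
  · apply HahnSeries.orderTop_le_of_coeff_ne_zero
    rw [emb_coeff, if_pos (by omega)]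
    have : (-(R.natDegree : ℤ)).natAbs = R.natDegree := by omega
    rw [this]
    simpa using hR
  · rw [HahnSeries.le_orderTop_iff_forall]
    intro m hm
    have hm' : m < -(R.natDegree : ℤ) := by exact_mod_cast hm
    rw [emb_coeff]
    split_ifs with h
    · apply Polynomial.coeff_eq_zero_of_natDegree_lt
      omega
    · rfl

theorem emb_injective : Function.Injective (emb F) := by
  rw [injective_iff_map_eq_zero]
  intro R hR
  by_contra hne
  have := emb_orderTop R hne
  rw [hR, HahnSeries.orderTop_zero] at this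
  exact WithTop.top_ne_coe this

/-! valuations of sums -/

theorem orderTop_sum_ge {ι : Type*} (s : Finset ι) (f : ι → LaurentSeries F) (c : WithTop ℤ)
    (h : ∀ i ∈ s, c ≤ (f i).orderTop) : c ≤ (∑ i ∈ s, f i).orderTop := by
  classical
  induction s using Finset.induction_on with
  | empty => simp
  | insert a s ha ih =>
    rw [Finset.sum_insert ha]
    refine le_trans ?_ HahnSeries.min_orderTop_le_orderTop_add
    exact le_min (h a (Finset.mem_insert_self a s)) (ih fun i hi => h i (Finset.mem_insert_of_mem hi))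

theorem orderTop_pow_nonneg (x : LaurentSeries F) (hx : 0 ≤ x.orderTop) (n : ℕ) :
    0 ≤ (x ^ n).orderTop := by
  induction n with
  | zero => simp
  | succ n ih =>
    rw [pow_succ, HahnSeries.orderTop_mul]
    exact add_nonneg ih hx

theorem orderTop_pow_sub_pow (x y : LaurentSeries F) (hx : 0 ≤ x.orderTop) (hy : 0 ≤ y.orderTop)
    (n : ℕ) : (x - y).orderTop ≤ (x ^ n - y ^ n).orderTop := by
  rw [← geom_sum₂_mul x y n, HahnSeries.orderTop_mul]
  have : 0 ≤ (∑ i ∈ Finset.range n, x ^ i * y ^ (n - 1 - i)).orderTop := by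
    apply orderTop_sum_ge
    intro i _
    rw [HahnSeries.orderTop_mul]
    exact add_nonneg (orderTop_pow_nonneg x hx _) (orderTop_pow_nonneg y hy _)
  calc (x - y).orderTop = 0 + (x - y).orderTop := by rw [zero_add]
    _ ≤ _ := add_le_add_left this _

/-- exponent of the height -/
noncomputable def hexp (P : F[X][X]) : ℕ := P.support.sup fun i => (P.coeff i).natDegree

theorem natDegree_le_hexp (P : F[X][X]) (i : ℕ) : (P.coeff i).natDegree ≤ hexp P := by
  by_cases h : P.coeff i = 0
  · rw [h, natDegree_zero]; exact Nat.zero_le _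
  · exact Finset.le_sup (f := fun i => (P.coeff i).natDegree) (mem_support_iff.2 h)

theorem orderTop_coeff_ge (P : F[X][X]) (i : ℕ) :
    ((-(hexp P : ℤ) : ℤ) : WithTop ℤ) ≤ (emb F (P.coeff i)).orderTop := by
  by_cases h : P.coeff i = 0
  · rw [h, map_zero, HahnSeries.orderTop_zero]; exact le_top
  · rw [emb_orderTop _ h]
    have := natDegree_le_hexp P i
    exact_mod_cast (by omega : (-(hexp P : ℤ)) ≤ -((P.coeff i).natDegree : ℤ))

/-- `|P(x) - P(y)| ≤ |x - y| H(P)` for `|x|, |y| ≤ 1`. -/
theorem eval_sub_eval (P : F[X][X]) (x y : LaurentSeries F) (hx : 0 ≤ x.orderTop)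
    (hy : 0 ≤ y.orderTop) :
    ((-(hexp P : ℤ) : ℤ) : WithTop ℤ) + (x - y).orderTop ≤
      (P.eval₂ (emb F) x - P.eval₂ (emb F) y).orderTop := by
  rw [eval₂_eq_sum_range, eval₂_eq_sum_range, ← Finset.sum_sub_distrib]
  apply orderTop_sum_ge
  intro i _
  rw [← mul_sub, HahnSeries.orderTop_mul]
  exact add_le_add (orderTop_coeff_ge P i) (orderTop_pow_sub_pow x y hx hy i)

/-- Liouville inequality: if `P(β) ≠ 0`, `β = A / Q`, then `|P(β)| ≥ |Q|^{-deg P}`. -/
theorem liouville (P : F[X][X]) (A Q : F[X]) (hQ : Q ≠ 0) (β : LaurentSeries F)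
    (hβ : emb F Q * β = emb F A) (hne : P.eval₂ (emb F) β ≠ 0) :
    (P.eval₂ (emb F) β).orderTop ≤ ((P.natDegree * Q.natDegree : ℕ) : ℤ) := by
  have hQ' : emb F Q ≠ 0 := by
    intro h
    exact hQ (emb_injective (by rw [h, map_zero]))
  -- `Q^m P(β)` is the image of a polynomial
  have h1 : emb F Q ^ P.natDegree * P.eval₂ (emb F) β =
      emb F (∑ i ∈ Finset.range (P.natDegree + 1), P.coeff i * A ^ i * Q ^ (P.natDegree - i)) := by
    rw [eval₂_eq_sum_range, Finset.mul_sum, map_sum]
    apply Finset.sum_congr rfl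
    intro i hi
    have hi' : i ≤ P.natDegree := by
      have := Finset.mem_range.1 hi
      omega
    rw [map_mul, map_mul, map_pow, map_pow, ← hβ, mul_pow]
    have : emb F Q ^ P.natDegree = emb F Q ^ i * emb F Q ^ (P.natDegree - i) := by
      rw [← pow_add]; congr 1; omega
    rw [this]
    ring
  set R := ∑ i ∈ Finset.range (P.natDegree + 1), P.coeff i * A ^ i * Q ^ (P.natDegree - i) with hR
  have hR0 : R ≠ 0 := by
    intro h
    rw [h, map_zero] at h1
    exact mul_ne_zero (pow_ne_zero _ hQ') hne h1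
  have h2 : (emb F Q ^ P.natDegree * P.eval₂ (emb F) β).orderTop ≤ ((0 : ℤ) : WithTop ℤ) := by
    rw [h1, emb_orderTop R hR0]
    exact_mod_cast (by omega : -(R.natDegree : ℤ) ≤ 0)
  have h3 : (emb F Q ^ P.natDegree).orderTop = ((-((P.natDegree * Q.natDegree : ℕ) : ℤ) : ℤ) : WithTop ℤ) := by
    rw [← map_pow, emb_orderTop _ (pow_ne_zero _ hQ), natDegree_pow]
  rw [HahnSeries.orderTop_mul, h3, ← HahnSeries.order_eq_orderTop_of_ne_zero hne,
    ← WithTop.coe_add, WithTop.coe_le_coe] at h2
  rw [← HahnSeries.order_eq_orderTop_of_ne_zero hne, WithTop.coe_le_coe]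
  push_cast at h2 ⊢
  linarith

/-- If `P` is irreducible and vanishes at `β = A / Q`, in lowest terms, then `P` is associated to
`Q X - A`. -/
theorem assoc_of_eval_eq_zero (P : F[X][X]) (hP : Irreducible P) (A Q : F[X]) (hQ : Q ≠ 0)
    (hcop : IsCoprime Q A) (β : LaurentSeries F) (hβ : emb F Q * β = emb F A)
    (h0 : P.eval₂ (emb F) β = 0) : Associated P (C Q * X - C A) := by
  set L : F[X][X] := C Q * X - C A with hL
  have hLdeg : L.natDegree = 1 := by
    rw [hL, sub_eq_add_neg, ← C_neg]
    exact natDegree_linear hQ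
  have hLprim : L.IsPrimitive := by
    intro r hr
    have h1 : r ∣ Q := by
      have := (C_dvd_iff_dvd_coeff r L).1 hr 1
      simpa [hL] using this
    have h2 : r ∣ A := by
      have := (C_dvd_iff_dvd_coeff r L).1 hr 0
      simpa [hL] using this
    exact hcop.isUnit_of_dvd' h1 h2
  have hPdeg : P.natDegree ≠ 0 := by
    intro h
    obtain ⟨c, hc⟩ : ∃ c, P = C c := ⟨P.coeff 0, eq_C_of_natDegree_eq_zero h⟩
    rw [hc, eval₂_C] at h0
    have : c = 0 := emb_injective (by rw [h0, map_zero])
    rw [this, C_0] at hc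
    exact hP.ne_zero hc
  have hPprim : P.IsPrimitive := hP.isPrimitive hPdeg
  -- go to the fraction field
  let K := FractionRing F[X]
  let ι : K →+* LaurentSeries F := IsFractionRing.lift (K := K) (emb_injective (F := F))
  have hι : ∀ r : F[X], ι (algebraMap F[X] K r) = emb F r := fun r =>
    IsFractionRing.lift_algebraMap emb_injective r
  have hιinj : Function.Injective ι := ι.injective
  have hQK : algebraMap F[X] K Q ≠ 0 := by
    intro h
    exact hQ ((IsFractionRing.injective F[X] K) (by rw [h, map_zero]))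
  let b : K := algebraMap F[X] K A / algebraMap F[X] K Q
  have hQ' : emb F Q ≠ 0 := by
    intro h
    exact hQ (emb_injective (by rw [h, map_zero]))
  have hb : ι b = β := by
    simp only [b]
    rw [map_div₀, hι, hι, ← hβ]
    field_simp
  have hroot : (P.map (algebraMap F[X] K)).IsRoot b := by
    rw [IsRoot.def, eval_map]
    apply hιinj
    rw [map_zero, Polynomial.hom_eval₂]
    have : ι.comp (algebraMap F[X] K) = emb F := RingHom.ext hι
    rw [this, hb, h0]
  have hdvd : L.map (algebraMap F[X] K) ∣ P.map (algebraMap F[X] K) := by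
    have h1 : L.map (algebraMap F[X] K) = C (algebraMap F[X] K Q) * (X - C b) := by
      simp only [hL, Polynomial.map_sub, Polynomial.map_mul, map_C, map_X, mul_sub, ← C_mul, b]
      rw [mul_div_cancel₀ _ hQK]
    rw [h1]
    have h2 : X - C b ∣ P.map (algebraMap F[X] K) := dvd_iff_isRoot.2 hroot
    exact (IsUnit.mul_left_dvd ((isUnit_C).2 (isUnit_iff_ne_zero.2 hQK))).2 h2
  have hLP : L ∣ P := hLprim.dvd_of_fraction_map_dvd_fraction_map hdvd
  have hLnu : ¬ IsUnit L := by
    intro h
    have := natDegree_eq_zero_of_isUnit h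
    omega
  rcases (hP.dvd_iff).1 hLP with h | h
  · exact absurd h hLnu
  · exact h

end basic

end Pool.Agent.Lib_MP_7488b5_nt
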