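import Mathlib
import Pool.Agent.Lib_MP_7488b5_nt.Basic

set_option autoImplicit false

namespace Pool.Agent.Lib_MP_7488b5_nt

open Polynomial

section series

variable {F : Type*} [Field F]

open Classical in
/-- `ξ = ∑_k T^{-r^k}` -/
noncomputable def xi (F : Type*) [Field F] (r : ℕ) : LaurentSeries F :=
  ((PowerSeries.mk fun n => if ∃ k : ℕ, n = r ^ k then (1 : F) else 0 : PowerSeries F) :
    LaurentSeries F)

/-- `β_k = ∑_{j ≤ k} T^{-r^j}` -/
noncomputable def beta (F : Type*) [Field F] (r k : ℕ) : LaurentSeries F :=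
  ∑ j ∈ Finset.range (k + 1), HahnSeries.single ((r ^ j : ℕ) : ℤ) (1 : F)

open Classical in
theorem xi_coeff (r : ℕ) (m : ℤ) :
    (xi F r).coeff m = if ∃ k : ℕ, m = ((r ^ k : ℕ) : ℤ) then 1 else 0 := by
  unfold xi
  rw [PowerSeries.coeff_coe]
  by_cases hm : m < 0
  · rw [if_pos hm, if_neg]
    rintro ⟨k, hk⟩
    omega
  · rw [if_neg hm, PowerSeries.coeff_mk]
    congr 1
    apply propext
    constructor
    · rintro ⟨k, hk⟩
      exact ⟨k, by omega⟩
    · rintro ⟨k, hk⟩
      exact ⟨k, by omega⟩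

open Classical in
theorem beta_coeff (r : ℕ) (hr : 2 ≤ r) (k : ℕ) (m : ℤ) :
    (beta F r k).coeff m = if ∃ j : ℕ, j ≤ k ∧ m = ((r ^ j : ℕ) : ℤ) then 1 else 0 := by
  unfold beta
  rw [HahnSeries.coeff_sum]
  simp only [HahnSeries.coeff_single]
  by_cases h : ∃ j : ℕ, j ≤ k ∧ m = ((r ^ j : ℕ) : ℤ)
  · rw [if_pos h]
    obtain ⟨j, hj, hm⟩ := h
    rw [Finset.sum_eq_single j]
    · rw [if_pos hm]
    · intro i _ hij
      rw [if_neg]
      intro h'
      rw [hm] at h'
      exact hij ((Nat.pow_right_injective hr (by exact_mod_cast h')).symm)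
    · intro hj'
      exact absurd (Finset.mem_range.2 (by omega)) hj'
  · rw [if_neg h]
    apply Finset.sum_eq_zero
    intro j hj
    rw [if_neg]
    intro h'
    exact h ⟨j, by have := Finset.mem_range.1 hj; omega, h'⟩

theorem xi_sub_beta (r : ℕ) (hr : 2 ≤ r) (k : ℕ) :
    (xi F r - beta F r k).orderTop = (((r ^ (k + 1) : ℕ) : ℤ) : WithTop ℤ) := by
  classical
  apply le_antisymm
  · apply HahnSeries.orderTop_le_of_coeff_ne_zero
    have hno : ¬ ∃ j : ℕ, j ≤ k ∧ ((r ^ (k + 1) : ℕ) : ℤ) = ((r ^ j : ℕ) : ℤ) := by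
      rintro ⟨j, hj, hm⟩
      have := Nat.pow_right_injective hr (by exact_mod_cast hm)
      omega
    rw [HahnSeries.coeff_sub, xi_coeff, beta_coeff r hr, if_pos ⟨k + 1, rfl⟩, if_neg hno, sub_zero]
    exact one_ne_zero
  · rw [HahnSeries.le_orderTop_iff_forall]
    intro m hm
    have hm' : m < ((r ^ (k + 1) : ℕ) : ℤ) := by exact_mod_cast hm
    rw [HahnSeries.coeff_sub, xi_coeff, beta_coeff r hr]
    by_cases h : ∃ j : ℕ, m = ((r ^ j : ℕ) : ℤ)
    · obtain ⟨j, hj⟩ := h
      have hjk : j ≤ k := by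
        rw [hj] at hm'
        have h1 : r ^ j < r ^ (k + 1) := by exact_mod_cast hm'
        have h2 := (Nat.pow_lt_pow_iff_right (by omega : 1 < r)).1 h1
        omega
      rw [if_pos ⟨j, hj⟩, if_pos ⟨j, hjk, hj⟩, sub_self]
    · rw [if_neg h, if_neg, sub_self]
      rintro ⟨j, _, hj⟩
      exact h ⟨j, hj⟩

theorem xi_orderTop (r : ℕ) : 0 ≤ (xi F r).orderTop := by
  classical
  rw [HahnSeries.le_orderTop_iff_forall]
  intro m hm
  have hm' : m < 0 := by exact_mod_cast hm
  rw [xi_coeff, if_neg]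
  rintro ⟨k, hk⟩
  omega

theorem beta_orderTop (r : ℕ) (k : ℕ) : 0 ≤ (beta F r k).orderTop := by
  unfold beta
  apply orderTop_sum_ge
  intro j _
  refine le_trans ?_ HahnSeries.orderTop_single_le
  exact_mod_cast Nat.zero_le (r ^ j)

/-- numerator of `β_k` -/
noncomputable def num (F : Type*) [Field F] (r k : ℕ) : F[X] :=
  ∑ j ∈ Finset.range (k + 1), X ^ (r ^ k - r ^ j)

theorem emb_num (r : ℕ) (hr : 2 ≤ r) (k : ℕ) :
    emb F (X ^ (r ^ k)) * beta F r k = emb F (num F r k) := by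
  unfold beta num
  rw [Finset.mul_sum, map_sum]
  apply Finset.sum_congr rfl
  intro j hj
  have hj' : j ≤ k := by have := Finset.mem_range.1 hj; omega
  have hle : r ^ j ≤ r ^ k := Nat.pow_le_pow_right (by omega) hj'
  rw [emb_X_pow, emb_X_pow, HahnSeries.single_mul_single, mul_one]
  have : (-((r ^ k : ℕ) : ℤ) + ((r ^ j : ℕ) : ℤ)) = -((r ^ k - r ^ j : ℕ) : ℤ) := by
    rw [Nat.cast_sub hle]; ring
  rw [this]

theorem num_coprime (r : ℕ) (hr : 2 ≤ r) (k : ℕ) : IsCoprime (X ^ (r ^ k) : F[X]) (num F r k) := by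
  apply IsCoprime.pow_left
  -- `num = 1 + X * B`
  have h : (X : F[X]) ∣ ∑ j ∈ Finset.range k, X ^ (r ^ k - r ^ j) := by
    apply Finset.dvd_sum
    intro j hj
    have hj' := Finset.mem_range.1 hj
    have hlt : r ^ j < r ^ k := Nat.pow_lt_pow_right (by omega) hj'
    exact dvd_pow_self _ (by omega)
  obtain ⟨B, hB⟩ := h
  unfold num
  rw [Finset.sum_range_succ, hB, Nat.sub_self, pow_zero]
  exact ⟨-B, 1, by ring⟩

end series

section algebraic

variable {F : Type*} [Field F]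

/-- `ξ^r = ξ - T^{-1}` when `r` is a power of the characteristic. -/
theorem xi_pow (p : ℕ) [hp : Fact p.Prime] [CharP F p] (e : ℕ) (he : 2 ≤ p ^ e) :
    (xi F (p ^ e)) ^ (p ^ e) = xi F (p ^ e) - HahnSeries.single 1 1 := by
  set r := p ^ e with hr
  have : CharP (LaurentSeries F) p :=
    charP_of_injective_ringHom (HahnSeries.C_injective (Γ := ℤ) (R := F)) p
  -- `β_k ^ r = β_{k+1} - T^{-1}`
  have hbeta : ∀ k, (beta F r k) ^ r = beta F r (k + 1) - HahnSeries.single 1 1 := by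
    intro k
    have h1 : (beta F r k) ^ r = ∑ j ∈ Finset.range (k + 1),
        (HahnSeries.single ((r ^ j : ℕ) : ℤ) (1 : F)) ^ r := by
      unfold beta
      rw [hr, sum_pow_char_pow]
    rw [h1, beta, Finset.sum_range_succ' _ (k + 1)]
    rw [pow_zero, Nat.cast_one, add_sub_cancel_right]
    apply Finset.sum_congr rfl
    intro j _
    rw [single_pow']
    congr 1
    push_cast
    ring
  have key : ∀ k : ℕ, (((r ^ (k + 1) : ℕ) : ℤ) : WithTop ℤ) ≤
      ((xi F r) ^ r - (xi F r - HahnSeries.single 1 1)).orderTop := by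
    intro k
    have h1 : (xi F r) ^ r - (xi F r - HahnSeries.single 1 1) =
        (xi F r - beta F r k) ^ r - (xi F r - beta F r (k + 1)) := by
      have h2 : (xi F r) ^ r = (xi F r - beta F r k) ^ r + (beta F r k) ^ r := by
        have h3 : xi F r = (xi F r - beta F r k) + beta F r k := (sub_add_cancel _ _).symm
        conv_lhs => rw [h3]
        rw [hr, add_pow_char_pow]
      rw [h2, hbeta]
      ring
    rw [h1]
    refine le_trans ?_ HahnSeries.min_orderTop_le_orderTop_sub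
    have hpos : (((r ^ (k + 1) : ℕ) : ℤ) : WithTop ℤ) ≤ (xi F r - beta F r k).orderTop := by
      rw [xi_sub_beta r he]
    have hnn : 0 ≤ (xi F r - beta F r k).orderTop := by
      refine le_trans ?_ hpos
      exact_mod_cast Nat.zero_le _
    apply le_min
    · obtain ⟨s, hs⟩ : ∃ s, r = s + 1 := ⟨r - 1, by omega⟩
      have hpw : (xi F r - beta F r k) ^ r = (xi F r - beta F r k) ^ s * (xi F r - beta F r k) := by
        conv_lhs => rw [hs, pow_succ, ← hs]
      rw [hpw, HahnSeries.orderTop_mul]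
      calc _ ≤ 0 + (xi F r - beta F r k).orderTop := by rw [zero_add]; exact hpos
        _ ≤ _ := add_le_add_left (orderTop_pow_nonneg _ hnn _) _
    · rw [xi_sub_beta r he]
      have : r ^ (k + 1) ≤ r ^ (k + 1 + 1) := Nat.pow_le_pow_right (by omega) (by omega)
      exact_mod_cast this
  rw [← sub_eq_zero, ← HahnSeries.orderTop_eq_top]
  by_contra hne
  have hne' : (xi F r) ^ r - (xi F r - HahnSeries.single 1 1) ≠ 0 := fun h => hne (by
    rw [h, HahnSeries.orderTop_zero])
  have h1 := HahnSeries.order_eq_orderTop_of_ne_zero hne'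
  set N := ((xi F r) ^ r - (xi F r - HahnSeries.single 1 1)).order with hN
  have h2 := key N.natAbs
  rw [← h1, WithTop.coe_le_coe] at h2
  have h3 : N.natAbs + 1 < r ^ (N.natAbs + 1) := Nat.lt_pow_self (by omega)
  have h4 : ((N.natAbs + 1 : ℕ) : ℤ) < ((r ^ (N.natAbs + 1) : ℕ) : ℤ) := by exact_mod_cast h3
  omega

/-- a nonzero polynomial vanishing at `x` has an irreducible factor vanishing at `x`. -/
theorem exists_irreducible (P : F[X][X]) (hP : P ≠ 0) (x : LaurentSeries F)
    (hx : P.eval₂ (emb F) x = 0) : ∃ R : F[X][X], IsMinDefPoly R x := by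
  induction P using UniqueFactorizationMonoid.induction_on_prime with
  | h₁ => exact absurd rfl hP
  | h₂ u hu =>
    exfalso
    have h1 : IsUnit (u.eval₂ (emb F) x) := by
      have := hu.map (Polynomial.eval₂RingHom (emb F) x)
      simpa using this
    rw [hx] at h1
    exact not_isUnit_zero h1
  | h₃ a p ha hp ih =>
    rw [eval₂_mul, mul_eq_zero] at hx
    rcases hx with h | h
    · exact ⟨p, hp.irreducible, h⟩
    · exact ih (right_ne_zero_of_mul hP) h

theorem xi_algebraic (p : ℕ) [hp : Fact p.Prime] [CharP F p] (e : ℕ) (he : 2 ≤ p ^ e) :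
    ∃ P : F[X][X], IsMinDefPoly P (xi F (p ^ e)) := by
  apply exists_irreducible (C X * X ^ (p ^ e) - C X * X + 1)
  · intro h
    have := congrArg (fun Q => Q.coeff 0) h
    simp only [coeff_add, coeff_sub, mul_coeff_zero, coeff_X_zero, mul_zero, sub_zero,
      coeff_one_zero, coeff_zero] at this
    rw [coeff_zero_eq_eval_zero (X ^ _), eval_pow, eval_X, zero_pow (by omega), mul_zero,
      zero_add] at this
    exact one_ne_zero this
  · rw [eval₂_add, eval₂_sub, eval₂_mul, eval₂_mul, eval₂_C, eval₂_X_pow, eval₂_X, eval₂_one,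
      xi_pow p e he, emb_X, ← mul_sub, sub_sub_cancel_left, mul_neg,
      HahnSeries.single_mul_single]
    simp

end algebraic

section exponents

variable {F : Type*} [Field F]

/-- distance of a zero of `P` to a rational function -/
theorem gap (P : F[X][X]) (hP : Irreducible P) (α : LaurentSeries F)
    (hα : P.eval₂ (emb F) α = 0) (hα0 : 0 ≤ α.orderTop) (A Q : F[X]) (hQ : Q ≠ 0)
    (hcop : IsCoprime Q A) (β : LaurentSeries F) (hβ : emb F Q * β = emb F A)
    (hβ0 : 0 ≤ β.orderTop) (hne : β ≠ α) :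
    (β - α).orderTop ≤ (((P.natDegree * Q.natDegree + hexp P : ℕ) : ℤ) : WithTop ℤ) := by
  have hQ' : emb F Q ≠ 0 := by
    intro h
    exact hQ (emb_injective (by rw [h, map_zero]))
  have hPβ : P.eval₂ (emb F) β ≠ 0 := by
    intro h0
    obtain ⟨u, hu⟩ := assoc_of_eval_eq_zero P hP A Q hQ hcop β hβ h0
    apply hne
    have h1 : (C Q * X - C A : F[X][X]).eval₂ (emb F) α = 0 := by
      rw [← hu, eval₂_mul, hα, zero_mul]
    rw [eval₂_sub, eval₂_mul, eval₂_C, eval₂_X, eval₂_C, sub_eq_zero, ← hβ] at h1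
    exact (mul_left_cancel₀ hQ' h1).symm
  have h1 := liouville P A Q hQ β hβ hPβ
  have h2 := eval_sub_eval P β α hβ0 hα0
  rw [hα, sub_zero] at h2
  have h3 := h2.trans h1
  have hsub : β - α ≠ 0 := sub_ne_zero.2 hne
  rw [← HahnSeries.order_eq_orderTop_of_ne_zero hsub, ← WithTop.coe_add, WithTop.coe_le_coe] at h3
  rw [← HahnSeries.order_eq_orderTop_of_ne_zero hsub, WithTop.coe_le_coe]
  push_cast at h3 ⊢
  linarith

variable [Fintype F]

theorem one_lt_card : 1 < (Fintype.card F : ℝ) := by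
  exact_mod_cast Fintype.one_lt_card

theorem absv_of_ne_zero (x : LaurentSeries F) (hx : x ≠ 0) :
    absv x = (Fintype.card F : ℝ) ^ (-x.order) := by
  unfold absv
  rw [if_neg hx]

theorem absv_emb_le (P : F[X][X]) (i : ℕ) :
    absv (emb F (P.coeff i)) ≤ (Fintype.card F : ℝ) ^ (hexp P) := by
  have hq := one_lt_card (F := F)
  by_cases h : P.coeff i = 0
  · rw [h, map_zero]
    unfold absv
    rw [if_pos rfl]
    positivity
  · have hne : emb F (P.coeff i) ≠ 0 := fun h' => h (emb_injective (by rw [h', map_zero]))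
    rw [absv_of_ne_zero _ hne]
    have h1 := emb_orderTop _ h
    rw [← HahnSeries.order_eq_orderTop_of_ne_zero hne, WithTop.coe_eq_coe] at h1
    rw [h1, neg_neg, zpow_natCast]
    exact pow_le_pow_right₀ hq.le (natDegree_le_hexp P i)

theorem height_eq (P : F[X][X]) (hP : P ≠ 0) :
    height P = (Fintype.card F : ℝ) ^ (hexp P) := by
  have hq := one_lt_card (F := F)
  apply le_antisymm
  · exact ciSup_le (absv_emb_le P)
  · obtain ⟨i, hi, hi2⟩ := Finset.exists_mem_eq_sup P.support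
      (support_nonempty.2 hP) (fun i => (P.coeff i).natDegree)
    have h : P.coeff i ≠ 0 := mem_support_iff.1 hi
    have hne : emb F (P.coeff i) ≠ 0 := fun h' => h (emb_injective (by rw [h', map_zero]))
    have h1 := emb_orderTop _ h
    rw [← HahnSeries.order_eq_orderTop_of_ne_zero hne, WithTop.coe_eq_coe] at h1
    have h2 : absv (emb F (P.coeff i)) = (Fintype.card F : ℝ) ^ (hexp P) := by
      rw [absv_of_ne_zero _ hne, h1, neg_neg, zpow_natCast]
      unfold hexp
      rw [hi2]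
    rw [← h2]
    refine le_ciSup (f := fun i => absv (emb F (P.coeff i))) ?_ i
    exact ⟨_, by rintro _ ⟨j, rfl⟩; exact absv_emb_le P j⟩

theorem hexp_ge_of_eval_beta (P : F[X][X]) (hP : Irreducible P) (A Q : F[X]) (hQ : Q ≠ 0)
    (hcop : IsCoprime Q A) (β : LaurentSeries F) (hβ : emb F Q * β = emb F A)
    (h0 : P.eval₂ (emb F) β = 0) : Q.natDegree ≤ hexp P := by
  obtain ⟨u, hu⟩ := (assoc_of_eval_eq_zero P hP A Q hQ hcop β hβ h0).symm
  -- `P = (Q X - A) u`
  have hu1 : ((u : F[X][X])).natDegree = 0 := natDegree_eq_zero_of_isUnit u.isUnit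
  obtain ⟨c, hc⟩ : ∃ c, (u : F[X][X]) = C c := ⟨_, eq_C_of_natDegree_eq_zero hu1⟩
  have hc0 : c ≠ 0 := by
    intro h
    have := u.ne_zero
    rw [hc, h, C_0] at this
    exact this rfl
  have h1 : P.coeff 1 = Q * c := by
    rw [← hu, hc, coeff_mul_C]
    simp
  have h2 := natDegree_le_hexp P 1
  rw [h1, natDegree_mul hQ hc0] at h2
  omega

/-- degree of `ξ` is at least `r` -/
theorem xi_degree (r : ℕ) (hr : 2 ≤ r) (n : ℕ) (hn : n < r) (P : F[X][X])
    (hP : IsMinDefPoly P (xi F r)) : n < P.natDegree := by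
  by_contra hcon
  rw [not_lt] at hcon
  have h : ∀ k : ℕ, r ^ (k + 1) ≤ n * r ^ k + hexp P := by
    intro k
    have hne : beta F r k ≠ xi F r := by
      intro h'
      have := xi_sub_beta (F := F) r hr k
      rw [h', sub_self, HahnSeries.orderTop_zero] at this
      exact WithTop.top_ne_coe this
    have h1 := gap P hP.1 (xi F r) hP.2 (xi_orderTop r) (num F r k) (X ^ (r ^ k))
      (pow_ne_zero _ X_ne_zero) (num_coprime r hr k) (beta F r k) (emb_num r hr k)
      (beta_orderTop r k) hne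
    rw [← HahnSeries.orderTop_neg, neg_sub, xi_sub_beta r hr k, natDegree_X_pow,
      WithTop.coe_le_coe] at h1
    have h2 : r ^ (k + 1) ≤ P.natDegree * r ^ k + hexp P := by exact_mod_cast h1
    have h3 : P.natDegree * r ^ k ≤ n * r ^ k := Nat.mul_le_mul_right _ hcon
    omega
  have h4 := h (hexp P)
  have h5 : hexp P < r ^ hexp P := Nat.lt_pow_self (by omega)
  rw [pow_succ] at h4
  nlinarith

/-- the key inequality -/
theorem key_ineq (r : ℕ) (hr : 2 ≤ r) (n : ℕ) (hn : n < r) (w : ℝ) (hw : 0 ≤ w) (k : ℕ)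
    (α : LaurentSeries F) (P : F[X][X]) (hP : IsMinDefPoly P α) (hdeg : P.natDegree ≤ n)
    (hH : height P ≤ (Fintype.card F : ℝ) ^ ((r - n) * r ^ k - 1))
    (hpos : 0 < absv (xi F r - α))
    (hlt : absv (xi F r - α) < (height P)⁻¹ *
      ((Fintype.card F : ℝ) ^ ((r - n) * r ^ k - 1)) ^ (-w)) :
    w * (((r : ℝ) - n) * (r : ℝ) ^ k - 1) < ((r : ℝ) - 1) * (r : ℝ) ^ k := by
  have hq := one_lt_card (F := F)
  have hq0 : (0 : ℝ) < Fintype.card F := by linarith
  set q : ℝ := (Fintype.card F : ℝ) with hqdef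
  have hPne : P ≠ 0 := hP.1.ne_zero
  rw [height_eq P hPne] at hH hlt
  set h := hexp P with hh
  set M := (r - n) * r ^ k - 1 with hM
  have hrk : 1 ≤ r ^ k := Nat.one_le_pow _ _ (by omega)
  have hM1 : 1 ≤ (r - n) * r ^ k := Nat.one_le_iff_ne_zero.2 (by
    apply Nat.mul_ne_zero <;> omega)
  have hMr : (M : ℝ) = ((r : ℝ) - n) * (r : ℝ) ^ k - 1 := by
    rw [hM, Nat.cast_sub hM1, Nat.cast_mul, Nat.cast_sub hn.le, Nat.cast_pow, Nat.cast_one]
  have hhM : h ≤ M := (pow_le_pow_iff_right₀ hq).1 hH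
  -- `N = v(ξ - α)`
  have hne : xi F r - α ≠ 0 := by
    intro h0
    rw [h0] at hpos
    unfold absv at hpos
    rw [if_pos rfl] at hpos
    exact lt_irrefl _ hpos
  rw [absv_of_ne_zero _ hne] at hlt
  set N : ℤ := (xi F r - α).order with hN
  have hNt : ((N : ℤ) : WithTop ℤ) = (xi F r - α).orderTop :=
    HahnSeries.order_eq_orderTop_of_ne_zero hne
  have hNgt : (h : ℝ) + w * M < N := by
    have e1 : q ^ (-N) = q ^ (-(N : ℝ)) := by
      rw [← Int.cast_neg, Real.rpow_intCast]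
    have e2 : (q ^ h)⁻¹ * (q ^ M) ^ (-w) = q ^ (-((h : ℝ) + w * M)) := by
      rw [← Real.rpow_natCast q h, ← Real.rpow_natCast q M, ← Real.rpow_neg hq0.le,
        ← Real.rpow_mul hq0.le, ← Real.rpow_add hq0]
      congr 1
      ring
    rw [← hqdef, e1, e2] at hlt
    have := (Real.rpow_lt_rpow_left_iff hq).1 hlt
    linarith
  have hMnn : (0 : ℝ) ≤ M := Nat.cast_nonneg M
  have hhnn : (0 : ℝ) ≤ h := Nat.cast_nonneg h
  have hNpos : 0 < N := by
    have : (0 : ℝ) < N := by nlinarith [mul_nonneg hw hMnn]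
    exact_mod_cast this
  have hα0 : 0 ≤ α.orderTop := by
    have e : α = xi F r - (xi F r - α) := (sub_sub_cancel _ _).symm
    rw [e]
    refine le_trans ?_ HahnSeries.min_orderTop_le_orderTop_sub
    apply le_min (xi_orderTop r)
    rw [← hNt]
    exact_mod_cast hNpos.le
  have hrn : (n : ℝ) ≤ (r : ℝ) - 1 := by
    have : (n : ℝ) + 1 ≤ r := by exact_mod_cast hn
    linarith
  have hrk' : (0 : ℝ) < (r : ℝ) ^ k := by
    have : (0 : ℝ) < r := by exact_mod_cast (by omega : 0 < r)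
    positivity
  rw [← hMr]
  by_cases hαβ : beta F r k = α
  · -- `α = β_k`
    have h1 : r ^ k ≤ h := by
      have := hexp_ge_of_eval_beta P hP.1 (num F r k) (X ^ (r ^ k))
        (pow_ne_zero _ X_ne_zero) (num_coprime r hr k) (beta F r k) (emb_num r hr k)
        (by rw [hαβ]; exact hP.2)
      rwa [natDegree_X_pow] at this
    have h2 : N = ((r ^ (k + 1) : ℕ) : ℤ) := by
      have := xi_sub_beta (F := F) r hr k
      rw [hαβ, ← hNt, WithTop.coe_eq_coe] at this
      exact this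
    have h3 : (N : ℝ) = (r : ℝ) ^ (k + 1) := by
      rw [h2]; push_cast; rfl
    have h4 : (r : ℝ) ^ k ≤ h := by exact_mod_cast h1
    rw [h3, pow_succ] at hNgt
    nlinarith
  · have h1 := gap P hP.1 α hP.2 hα0 (num F r k) (X ^ (r ^ k))
      (pow_ne_zero _ X_ne_zero) (num_coprime r hr k) (beta F r k) (emb_num r hr k)
      (beta_orderTop r k) hαβ
    rw [natDegree_X_pow] at h1
    have hb : P.natDegree * r ^ k + hexp P ≤ n * r ^ k + h := by
      have := Nat.mul_le_mul_right (r ^ k) hdeg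
      omega
    have h2 : (beta F r k - α).orderTop ≤ (((n * r ^ k + h : ℕ) : ℤ) : WithTop ℤ) :=
      h1.trans (by exact_mod_cast hb)
    have hlt2 : n * r ^ k + h < r ^ (k + 1) := by
      have e : (r - n) * r ^ k = r * r ^ k - n * r ^ k := Nat.sub_mul _ _ _
      have e2 : n * r ^ k ≤ r * r ^ k := Nat.mul_le_mul_right _ hn.le
      rw [pow_succ, mul_comm (r ^ k) r]
      omega
    have h3 : N ≤ ((n * r ^ k + h : ℕ) : ℤ) := by
      by_contra hcon
      rw [not_le] at hcon
      have e : beta F r k - α = (xi F r - α) - (xi F r - beta F r k) := by ring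
      have h4 : min (xi F r - α).orderTop (xi F r - beta F r k).orderTop ≤
          (beta F r k - α).orderTop := by
        rw [e]; exact HahnSeries.min_orderTop_le_orderTop_sub
      have h5 := h4.trans h2
      rw [← hNt, xi_sub_beta r hr k, min_le_iff, WithTop.coe_le_coe, WithTop.coe_le_coe] at h5
      rcases h5 with h5 | h5
      · omega
      · have : r ^ (k + 1) ≤ n * r ^ k + h := by exact_mod_cast h5
        omega
    have h4 : (N : ℝ) ≤ n * (r : ℝ) ^ k + h := by exact_mod_cast h3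
    nlinarith

theorem wHatStar_le (r : ℕ) (hr : 2 ≤ r) (n : ℕ) (hn : n < r) :
    wHatStar n (xi F r) ≤ ((((r : ℝ) - 1) / ((r : ℝ) - n) : ℝ) : EReal) := by
  have hq := one_lt_card (F := F)
  apply sSup_le
  rintro _ ⟨w, rfl, H₀, hw⟩
  rw [EReal.coe_le_coe_iff]
  by_contra hcon
  rw [not_le] at hcon
  have hrn : (0 : ℝ) < (r : ℝ) - n := by
    have : (n : ℝ) < r := by exact_mod_cast hn
    linarith
  have hr1 : (0 : ℝ) ≤ (r : ℝ) - 1 := by
    have : (2 : ℝ) ≤ r := by exact_mod_cast hr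
    linarith
  have hw0 : 0 < w := lt_of_le_of_lt (div_nonneg hr1 hrn.le) hcon
  rw [div_lt_iff₀ hrn] at hcon
  set δ := w * ((r : ℝ) - n) - ((r : ℝ) - 1) with hδ
  have hδ0 : 0 < δ := by rw [hδ]; linarith
  have hr1' : (1 : ℝ) < r := by exact_mod_cast (by omega : 1 < r)
  -- choose `k`
  obtain ⟨k₁, hk₁⟩ := pow_unbounded_of_one_lt (w / δ) hr1'
  obtain ⟨k₂, hk₂⟩ := pow_unbounded_of_one_lt H₀ hq
  set k := max k₁ (k₂ + 1) with hk
  have hk1 : w / δ < (r : ℝ) ^ k :=
    lt_of_lt_of_le hk₁ (pow_le_pow_right₀ hr1'.le (le_max_left _ _))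
  have hk2 : k₂ ≤ (r - n) * r ^ k - 1 := by
    have h1 : k < r ^ k := Nat.lt_pow_self (by omega)
    have h2 : k₂ + 1 ≤ k := le_max_right _ _
    have h3 : r ^ k ≤ (r - n) * r ^ k := Nat.le_mul_of_pos_left _ (by omega)
    omega
  have hH : H₀ < (Fintype.card F : ℝ) ^ ((r - n) * r ^ k - 1) :=
    lt_of_lt_of_le hk₂ (pow_le_pow_right₀ hq.le hk2)
  obtain ⟨α, P, hP, hdeg, hheight, hpos, hlt⟩ := hw _ hH
  have := key_ineq r hr n hn w hw0.le k α P hP hdeg hheight hpos hlt
  rw [div_lt_iff₀ hδ0] at hk1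
  rw [hδ] at hk1
  nlinarith

end exponents

theorem main (F : Type*) [Field F] [Fintype F] (n : ℕ) (hn : 2 ≤ n) :
    ∃ ξ : LaurentSeries F, (∃ P, IsMinDefPoly P ξ) ∧ (∀ P, IsMinDefPoly P ξ → n < P.natDegree) ∧
      wHatStar n ξ < (n : EReal) := by
  obtain ⟨p, hp⟩ := CharP.exists F
  obtain ⟨f, hpp, hf⟩ := FiniteField.card F p
  have : Fact p.Prime := ⟨hpp⟩
  set r := Fintype.card F ^ (n + 1) with hr
  have hrp : r = p ^ ((f : ℕ) * (n + 1)) := by rw [hr, hf, pow_mul]
  have hq2 : 2 ≤ Fintype.card F := Fintype.one_lt_card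
  have hrn : n + 1 < r := lt_of_lt_of_le (Nat.lt_pow_self (by omega : 1 < 2))
    (Nat.pow_le_pow_left hq2 (n + 1))
  have hr2 : 2 ≤ r := by omega
  refine ⟨xi F r, ?_, ?_, ?_⟩
  · rw [hrp]
    exact xi_algebraic p _ (by rw [← hrp]; exact hr2)
  · intro P hP
    exact xi_degree r hr2 n (by omega) P hP
  · refine lt_of_le_of_lt (wHatStar_le r hr2 n (by omega)) ?_
    have h1 : ((n : ℝ) : EReal) = (n : EReal) := by norm_cast
    rw [← h1, EReal.coe_lt_coe_iff, div_lt_iff₀]
    · have h2 : (n : ℝ) + 1 < r := by exact_mod_cast hrn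
      have h3 : (2 : ℝ) ≤ n := by exact_mod_cast hn
      nlinarith
    · have : (n : ℝ) + 1 < r := by exact_mod_cast hrn
      linarith

end Pool.Agent.Lib_MP_7488b5_nt
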